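import Pool.Agent.L5helper55.OC.Fin

/-!
# A model of ZF in which all clone homomorphisms from oligomorphic clones to `1` are continuous

The full (positive) answer to Q2. The definitions are in `Pool.Agent.L5helper55.OC.Pub` and
`Pool.Agent.Y518.CC.Pub`.
-/

set_option autoImplicit false

namespace Pool.Agent.Results.MP_a98434_lc.ContinuousToOne

open Pool.Agent.Y518.CC.Pub (IsZF DC)
open Pool.Agent.L5helper55.OC.Pub

/-- There is a countable transitive model `M` of ZF + DC such that in `M`, for every countably
infinite set `a` and every closed oligomorphic function clone `C` on `a`, every clone homomorphism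
from `C` to the clone `1` of the projections on a two-element set is continuous. -/
theorem result : ∃ M : Set ZFSet.{0}, M.Countable ∧ IsZF M ∧ DC M ∧
    ∀ a ∈ M, CountablyInfiniteIn M a →
      ∀ C : Clone (El a), C.In M → C.ClosedIn M → C.Oligomorphic →
        ∀ b ∈ M, (∃ u v, u ≠ v ∧ b = {u, v}) →
          ∀ h : Hom C (one (El b)), h.In M → h.Continuous :=
  Pool.Agent.L5helper55.OC.main

end Pool.Agent.Results.MP_a98434_lc.ContinuousToOne
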